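import Mathlib

/-!
Definitions: restricted wreath products `R ≀ ℤ^k` and the conjugacy depth function.
-/

set_option autoImplicit false

namespace Pool.Agent.Lib.MP_9ae5d9_al

/-- The shift action of `ℤ^k` on the base group `⨁_{ℤ^k} R`: `b` moves the coordinate `x` to
`x + b`. -/
noncomputable def shift (R : Type) [AddCommGroup R] (k : ℕ) :
    Multiplicative (Fin k → ℤ) →* MulAut (Multiplicative ((Fin k → ℤ) →₀ R)) where
  toFun b := AddEquiv.toMultiplicative (Finsupp.domCongr (Equiv.addRight b.toAdd))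
  map_one' := by
    ext f x
    show f.toAdd (x + -(0 : Fin k → ℤ)) = f.toAdd x
    rw [neg_zero, add_zero]
  map_mul' a b := by
    ext f x
    show f.toAdd (x + -(a.toAdd + b.toAdd)) = f.toAdd (x + -a.toAdd + -b.toAdd)
    rw [neg_add, add_assoc]

/-- The restricted wreath product `R ≀ ℤ^k`. -/
abbrev Wreath (R : Type) [AddCommGroup R] (k : ℕ) : Type :=
  SemidirectProduct (Multiplicative ((Fin k → ℤ) →₀ R)) (Multiplicative (Fin k → ℤ)) (shift R k)

/-- `g` has word length at most `n` with respect to `S`. -/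
def InBall {G : Type} [Group G] (S : Finset G) (n : ℕ) (g : G) : Prop :=
  ∃ l : List G, l.length ≤ n ∧ (∀ x ∈ l, x ∈ S ∨ x⁻¹ ∈ S) ∧ l.prod = g

/-- `D_G(g, h)`: the least order of a finite quotient of `G` in which the images of `g` and `h`
are not conjugate (`⊤` if there is none). -/
noncomputable def depth {G : Type} [Group G] (g h : G) : ℕ∞ :=
  sInf {N : ℕ∞ | ∃ (Q : Type) (_ : Group Q) (_ : Finite Q) (π : G →* Q),
    Function.Surjective π ∧ ¬ IsConj (π g) (π h) ∧ N = (Nat.card Q : ℕ∞)}

/-- The conjugacy depth function `Conj_G(n)` for word length with respect to `S`. -/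
noncomputable def conjDepth {G : Type} [Group G] (S : Finset G) (n : ℕ) : ℕ∞ :=
  sSup {N : ℕ∞ | ∃ g h : G, InBall S n g ∧ InBall S n h ∧ ¬ IsConj g h ∧ N = depth g h}

end Pool.Agent.Lib.MP_9ae5d9_al
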