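import Mathlib
import Pool.Agent.Lib.MP_9ae5d9_al.Defs

-- part Pool.Agent.Lib.MP_9ae5d9_al.Basic
section

set_option autoImplicit false

namespace Pool.Agent.Lib.MP_9ae5d9_al

theorem depth_le {G Q : Type} [Group G] [Group Q] [Finite Q] (π : G →* Q) (g h : G)
    (hne : ∀ γ : G, π (γ * g * γ⁻¹) ≠ π h) : depth g h ≤ (Nat.card Q : ℕ∞) := by
  have h1 : depth g h ≤ (Nat.card π.range : ℕ∞) := by
    apply sInf_le
    refine ⟨π.range, inferInstance, inferInstance, π.rangeRestrict,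
      π.rangeRestrict_surjective, ?_, rfl⟩
    intro hc
    obtain ⟨c, hc⟩ := isConj_iff.1 hc
    obtain ⟨γ, rfl⟩ := π.rangeRestrict_surjective c
    apply hne γ
    have := congrArg Subtype.val hc
    simpa using this
  refine h1.trans ?_
  exact_mod_cast Subgroup.card_le_card_group _

variable {R : Type} [AddCommGroup R] {k : ℕ}

def lamp (g : Wreath R k) : (Fin k → ℤ) →₀ R := g.left.toAdd
def pos (g : Wreath R k) : Fin k → ℤ := g.right.toAdd

noncomputable def sh (b : Fin k → ℤ) : ((Fin k → ℤ) →₀ R) →+ ((Fin k → ℤ) →₀ R) :=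
  Finsupp.mapDomain.addMonoidHom (· + b)

theorem sh_apply (b : Fin k → ℤ) (f : (Fin k → ℤ) →₀ R) :
    sh b f = Finsupp.mapDomain (· + b) f := rfl

theorem sh_single (b x : Fin k → ℤ) (r : R) :
    sh b (Finsupp.single x r) = Finsupp.single (x + b) r := by
  rw [sh_apply, Finsupp.mapDomain_single]

theorem sh_sh (b c : Fin k → ℤ) (f : (Fin k → ℤ) →₀ R) : sh b (sh c f) = sh (c + b) f := by
  rw [sh_apply, sh_apply, sh_apply, ← Finsupp.mapDomain_comp]
  congr 1
  funext x
  simp [add_assoc]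

theorem shift_toAdd (b : Multiplicative (Fin k → ℤ)) (f : Multiplicative ((Fin k → ℤ) →₀ R)) :
    (shift R k b f).toAdd = sh b.toAdd f.toAdd :=
  Finsupp.equivMapDomain_eq_mapDomain (Equiv.addRight b.toAdd) f.toAdd

theorem lamp_mul (g h : Wreath R k) : lamp (g * h) = lamp g + sh (pos g) (lamp h) := by
  unfold lamp pos
  rw [SemidirectProduct.mul_left, toAdd_mul, shift_toAdd]

theorem pos_mul (g h : Wreath R k) : pos (g * h) = pos g + pos h := rfl

theorem lamp_inv (g : Wreath R k) : lamp g⁻¹ = - sh (- pos g) (lamp g) := by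
  unfold lamp pos
  rw [SemidirectProduct.inv_left, shift_toAdd, toAdd_inv, toAdd_inv, map_neg]

theorem pos_inv (g : Wreath R k) : pos g⁻¹ = - pos g := rfl

theorem lamp_one : lamp (1 : Wreath R k) = 0 := rfl
theorem pos_one : pos (1 : Wreath R k) = 0 := rfl

theorem lamp_conj (γ g : Wreath R k) :
    lamp (γ * g * γ⁻¹) = lamp γ + sh (pos γ) (lamp g) - sh (pos g) (lamp γ) := by
  rw [lamp_mul, lamp_mul, lamp_inv, pos_mul, map_neg, sh_sh, ← sub_eq_add_neg,
    neg_add_cancel_left]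

theorem pos_conj (γ g : Wreath R k) : pos (γ * g * γ⁻¹) = pos g := by
  rw [pos_mul, pos_mul, pos_inv]
  abel

theorem wreath_ext {g h : Wreath R k} (h1 : lamp g = lamp h) (h2 : pos g = pos h) : g = h :=
  SemidirectProduct.ext h1 h2

theorem exists_sub_sh {B : Type} [AddCommGroup B] (Φ : (Fin k → ℤ) →+ B) (b : Fin k → ℤ)
    (hker : ∀ x, Φ x = 0 → x ∈ AddSubgroup.zmultiples b) (u : (Fin k → ℤ) →₀ R)
    (hu : Finsupp.mapDomain Φ u = 0) : ∃ φ, u = φ - sh b φ := by
  let T : AddSubgroup ((Fin k → ℤ) →₀ R) := (AddMonoidHom.id _ - sh b).range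
  have h1 : ∀ (x : Fin k → ℤ) (r : R), Finsupp.single x r - Finsupp.single (x + b) r ∈ T := by
    intro x r
    exact ⟨Finsupp.single x r, by simp [sh_single]⟩
  have h2 : ∀ (x : Fin k → ℤ) (r : R) (n : ℤ),
      Finsupp.single (x + n • b) r - Finsupp.single x r ∈ T := by
    intro x r n
    induction n using Int.induction_on with
    | zero => simp
    | succ n ih =>
      have := T.sub_mem ih (h1 (x + (n : ℤ) • b) r)
      convert this using 1
      rw [add_smul, one_smul, add_assoc]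
      abel
    | pred n ih =>
      have := T.add_mem ih (h1 (x + (-(n : ℤ) - 1) • b) r)
      convert this using 1
      have : x + (-(n : ℤ) - 1) • b + b = x + -(n : ℤ) • b := by
        rw [sub_smul, one_smul]; abel
      rw [this]
      abel
  let s : B → (Fin k → ℤ) := Function.invFun Φ
  have h3 : ∀ f : (Fin k → ℤ) →₀ R, f - Finsupp.mapDomain (s ∘ Φ) f ∈ T := by
    intro f
    induction f using Finsupp.induction_linear with
    | zero => simp
    | add f g hf hg =>
      rw [Finsupp.mapDomain_add]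
      convert T.add_mem hf hg using 1
      abel
    | single x r =>
      rw [Finsupp.mapDomain_single]
      have h4 : Φ (s (Φ x)) = Φ x := Function.invFun_eq ⟨x, rfl⟩
      obtain ⟨n, hn⟩ := hker (x - s (Φ x)) (by rw [map_sub, h4, sub_self])
      have h5 := h2 (s (Φ x)) r n
      have h6 : s (Φ x) + n • b = x := by
        have : n • b = x - s (Φ x) := hn
        rw [this]; abel
      rw [h6] at h5
      exact h5
  have h4 := h3 u
  rw [Finsupp.mapDomain_comp, hu, Finsupp.mapDomain_zero, sub_zero] at h4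
  obtain ⟨φ, hφ⟩ := h4
  exact ⟨φ, hφ.symm⟩

theorem isConj_of_mapDomain {B : Type} [AddCommGroup B] (Φ : (Fin k → ℤ) →+ B) (g h : Wreath R k)
    (hpos : pos h = pos g) (hker : ∀ x, Φ x = 0 → x ∈ AddSubgroup.zmultiples (pos g))
    (c : Fin k → ℤ)
    (hc : Finsupp.mapDomain Φ (lamp h) = Finsupp.mapDomain Φ (sh c (lamp g))) : IsConj g h := by
  obtain ⟨φ, hφ⟩ := exists_sub_sh Φ (pos g) hker (lamp h - sh c (lamp g)) (by
    have := (Finsupp.mapDomain.addMonoidHom (M := R) Φ).map_sub (lamp h) (sh c (lamp g))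
    exact this.trans (sub_eq_zero.2 hc))
  refine isConj_iff.2 ⟨⟨Multiplicative.ofAdd φ, Multiplicative.ofAdd c⟩, ?_⟩
  apply wreath_ext
  · rw [lamp_conj]
    show φ + sh c (lamp g) - sh (pos g) φ = lamp h
    rw [sub_eq_iff_eq_add.1 hφ]
    abel
  · rw [pos_conj, hpos]

theorem isConj_of_translate {B : Type} [AddCommGroup B] (Φ : (Fin k → ℤ) →+ B) (g h : Wreath R k)
    (hpos : pos h = pos g) (hker : ∀ x, Φ x = 0 → x ∈ AddSubgroup.zmultiples (pos g))
    (e : B)
    (he : ∀ p, Finsupp.mapDomain Φ (lamp h) p = Finsupp.mapDomain Φ (lamp g) (p - e)) :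
    IsConj g h := by
  classical
  have key : ∀ c, (∀ p, Finsupp.mapDomain Φ (lamp h) p = Finsupp.mapDomain Φ (lamp g) (p - Φ c)) →
      IsConj g h := by
    intro c hc
    refine isConj_of_mapDomain Φ g h hpos hker c ?_
    ext p
    rw [hc, sh_apply, ← Finsupp.mapDomain_comp]
    have : (Φ ∘ fun x => x + c) = (Equiv.addRight (Φ c)) ∘ Φ := by
      funext x; simp
    rw [this, Finsupp.mapDomain_comp, Finsupp.mapDomain_equiv_apply]
    simp [sub_eq_add_neg]
  by_cases h0 : Finsupp.mapDomain Φ (lamp g) = 0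
  · refine key 0 fun p => ?_
    rw [he, h0]; rfl
  · obtain ⟨p, hp⟩ := Finsupp.support_nonempty_iff.2 h0
    have hp' : p + e ∈ (Finsupp.mapDomain Φ (lamp h)).support := by
      rw [Finsupp.mem_support_iff] at hp ⊢
      rwa [he, add_sub_cancel_right]
    obtain ⟨x, -, hx⟩ := Finset.mem_image.1 (Finsupp.mapDomain_support hp)
    obtain ⟨x', -, hx'⟩ := Finset.mem_image.1 (Finsupp.mapDomain_support hp')
    refine key (x' - x) fun q => ?_
    rw [he, Φ.map_sub x' x, hx, hx', add_sub_cancel_left]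

theorem exists_coords (b : Fin k → ℤ) (r : ℕ) (hr : 1 ≤ r) (hb : ∀ i, (b i).natAbs ≤ r) :
    ∃ (d : ℕ) (ρ : (Fin k → ℤ) →+ (Fin k → ℤ)) (l : (Fin k → ℤ) →+ ZMod d),
      1 ≤ d ∧ d ≤ r ∧ ρ b = 0 ∧ l b = 0 ∧
      (∀ x, ρ x = 0 → l x = 0 → x ∈ AddSubgroup.zmultiples b) ∧
      ∀ x : Fin k → ℤ, (∀ i, (x i).natAbs ≤ r) → ∀ i, (ρ x i).natAbs ≤ 2 * r ^ 2 := by
  classical
  by_cases hb0 : b = 0
  · refine ⟨1, AddMonoidHom.id _, 0, le_rfl, hr, hb0, rfl, ?_, ?_⟩
    · intro x hx _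
      have : x = 0 := hx
      rw [this]; exact zero_mem _
    · intro x hx i
      have := hx i
      show (x i).natAbs ≤ _
      nlinarith
  obtain ⟨i₀, hi₀⟩ : ∃ i, b i ≠ 0 := by
    by_contra hcon
    push Not at hcon
    exact hb0 (funext hcon)
  obtain ⟨b', hb', hg⟩ := Finset.extract_gcd (s := Finset.univ) b ⟨i₀, Finset.mem_univ _⟩
  obtain ⟨lam, hlam⟩ := Finset.gcd_eq_sum_mul Finset.univ b'
  rw [hg] at hlam
  set D : ℤ := Finset.univ.gcd b with hD
  have hb'' : ∀ i, b i = D * b' i := fun i => hb' i (Finset.mem_univ i)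
  have hD0 : D ≠ 0 := by
    intro h; apply hi₀; rw [hb'', h, zero_mul]
  have hb'0 : b' i₀ ≠ 0 := by
    intro h; apply hi₀; rw [hb'', h, mul_zero]
  let L : (Fin k → ℤ) →+ ℤ :=
    { toFun := fun x => ∑ i, x i * lam i
      map_zero' := by simp
      map_add' := by intro x y; simp [add_mul, Finset.sum_add_distrib] }
  let ρ : (Fin k → ℤ) →+ (Fin k → ℤ) :=
    { toFun := fun x j => x j * b i₀ - x i₀ * b j
      map_zero' := by funext j; simp
      map_add' := by intro x y; funext j; simp; ring }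
  refine ⟨D.natAbs, ρ, (Int.castAddHom (ZMod D.natAbs)).comp L, ?_, ?_, ?_, ?_, ?_, ?_⟩
  · exact Int.natAbs_pos.2 hD0
  · refine le_trans ?_ (hb i₀)
    rw [hb'' i₀, Int.natAbs_mul]
    exact Nat.le_mul_of_pos_right _ (Int.natAbs_pos.2 hb'0)
  · funext j
    show b j * b i₀ - b i₀ * b j = 0
    ring
  · show ((∑ i, b i * lam i : ℤ) : ZMod D.natAbs) = 0
    rw [ZMod.intCast_zmod_eq_zero_iff_dvd, Int.natAbs_dvd]
    exact Finset.dvd_sum fun i _ => by rw [hb'' i, mul_assoc]; exact dvd_mul_right _ _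
  · intro x hx hl
    have h1 : ((∑ i, x i * lam i : ℤ) : ZMod D.natAbs) = 0 := hl
    rw [ZMod.intCast_zmod_eq_zero_iff_dvd, Int.natAbs_dvd] at h1
    obtain ⟨m, hm⟩ := h1
    have h2 : ∀ j, x j * b' i₀ = x i₀ * b' j := by
      intro j
      have h3 : x j * b i₀ - x i₀ * b j = 0 := congrFun hx j
      rw [hb'' i₀, hb'' j] at h3
      apply mul_left_cancel₀ hD0
      linear_combination h3
    have h4 : ∀ i j, x i * b' j = x j * b' i := by
      intro i j
      apply mul_left_cancel₀ hb'0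
      linear_combination b' j * h2 i - b' i * h2 j
    refine ⟨m, ?_⟩
    funext j
    show m * b j = x j
    have h5 : (∑ i, x i * lam i) * b' j = x j * ∑ i, b' i * lam i := by
      rw [Finset.sum_mul, Finset.mul_sum]
      refine Finset.sum_congr rfl fun i _ => ?_
      linear_combination lam i * h4 i j
    rw [← hlam, hm] at h5
    rw [hb'' j]
    linear_combination h5
  · intro x hx j
    show (x j * b i₀ - x i₀ * b j).natAbs ≤ _
    refine (Int.natAbs_sub_le _ _).trans ?_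
    rw [Int.natAbs_mul, Int.natAbs_mul]
    have h1 := Nat.mul_le_mul (hx j) (hb i₀)
    have h2 := Nat.mul_le_mul (hx i₀) (hb j)
    nlinarith

end Pool.Agent.Lib.MP_9ae5d9_al
end

-- part Pool.Agent.Lib.MP_9ae5d9_al.Chars
section

set_option autoImplicit false

namespace Pool.Agent.Lib.MP_9ae5d9_al

open AddMonoidAlgebra

variable {k : ℕ} {K : Type} [Field K]

/-- the character of `ℤ^k` attached to a point of the torus -/
def chi (y : Fin k → Kˣ) (x : Fin k → ℤ) : Kˣ := ∏ i, y i ^ x i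

theorem chi_add (y : Fin k → Kˣ) (x x' : Fin k → ℤ) : chi y (x + x') = chi y x * chi y x' := by
  simp [chi, zpow_add, Finset.prod_mul_distrib]

theorem chi_zero (y : Fin k → Kˣ) : chi y 0 = 1 := by simp [chi]

theorem chi_mul (y z : Fin k → Kˣ) (x : Fin k → ℤ) : chi (y * z) x = chi y x * chi z x := by
  simp [chi, mul_zpow, Finset.prod_mul_distrib]

theorem chi_one (x : Fin k → ℤ) : chi (1 : Fin k → Kˣ) x = 1 := by simp [chi]

def chiHom (y : Fin k → Kˣ) : Multiplicative (Fin k → ℤ) →* K where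
  toFun x := (chi y x.toAdd : K)
  map_one' := by simp [chi_zero]
  map_mul' a b := by simp [chi_add]

noncomputable def ev (y : Fin k → Kˣ) : AddMonoidAlgebra K (Fin k → ℤ) →ₐ[K] K :=
  AddMonoidAlgebra.lift K K (Fin k → ℤ) (chiHom y)

theorem ev_single (y : Fin k → Kˣ) (x : Fin k → ℤ) (r : K) :
    ev y (single x r) = r * chi y x := by
  simp [ev, chiHom]

theorem ev_apply (y : Fin k → Kˣ) (u : AddMonoidAlgebra K (Fin k → ℤ)) :
    ev y u = ∑ x ∈ u.coeff.support, u.coeff x * chi y x := by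
  rw [ev, AddMonoidAlgebra.lift_apply]
  rfl

def Box (D : ℕ) (u : AddMonoidAlgebra K (Fin k → ℤ)) : Prop :=
  ∀ x ∈ u.coeff.support, ∀ i, (x i).natAbs ≤ D

theorem Box.mono {D E : ℕ} {u : AddMonoidAlgebra K (Fin k → ℤ)} (h : Box D u) (hDE : D ≤ E) :
    Box E u := fun x hx i => (h x hx i).trans hDE

theorem Box.mul {D E : ℕ} {u v : AddMonoidAlgebra K (Fin k → ℤ)} (hu : Box D u) (hv : Box E v) :
    Box (D + E) (u * v) := by
  classical
  intro x hx i
  obtain ⟨a, ha, b, hb, rfl⟩ := Finset.mem_add.1 (support_coeff_mul_subset u v hx)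
  have := hu a ha i
  have := hv b hb i
  simp only [Pi.add_apply]
  omega

theorem Box.sub {D : ℕ} {u v : AddMonoidAlgebra K (Fin k → ℤ)} (hu : Box D u) (hv : Box D v) :
    Box D (u - v) := by
  classical
  intro x hx i
  rw [coeff_sub] at hx
  rcases Finset.mem_union.1 (Finsupp.support_sub hx) with h | h
  · exact hu x h i
  · exact hv x h i

theorem Box.smul {D : ℕ} {u : AddMonoidAlgebra K (Fin k → ℤ)} (hu : Box D u) (c : K) :
    Box D (c • u) := by
  intro x hx i
  rw [coeff_smul] at hx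
  exact hu x (Finsupp.support_smul hx) i

theorem box_single {D : ℕ} (x : Fin k → ℤ) (r : K) (hx : ∀ i, (x i).natAbs ≤ D) :
    Box D (single x r) := by
  intro y hy i
  rw [coeff_single] at hy
  rw [Finset.mem_singleton.1 (Finsupp.support_single_subset hy)]
  exact hx i

theorem box_one : Box 0 (1 : AddMonoidAlgebra K (Fin k → ℤ)) :=
  box_single 0 1 (by simp)

theorem box_prod {ι : Type} (s : Finset ι) (D : ℕ) (u : ι → AddMonoidAlgebra K (Fin k → ℤ))
    (hu : ∀ j, Box D (u j)) : Box (s.card * D) (∏ j ∈ s, u j) := by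
  classical
  induction s using Finset.induction_on with
  | empty => simpa using box_one
  | insert a s ha ih =>
    rw [Finset.prod_insert ha, Finset.card_insert_of_notMem ha, add_mul, one_mul, add_comm]
    exact (hu a).mul ih

/-- the character as a function of the torus point -/
def chiDual (x : Fin k → ℤ) : (Fin k → Kˣ) →* K where
  toFun y := (chi y x : K)
  map_one' := by simp [chi_one]
  map_mul' a b := by simp [chi_mul]

theorem exists_ev_ne_zero [Fintype K] {D : ℕ} {u : AddMonoidAlgebra K (Fin k → ℤ)} (hu : u ≠ 0)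
    (hb : Box D u) (hD : 2 * D + 1 < Fintype.card K) : ∃ y, ev y u ≠ 0 := by
  classical
  by_contra hcon
  push Not at hcon
  obtain ⟨g, hg⟩ := IsCyclic.exists_ofOrder_eq_natCard (α := Kˣ)
  rw [Nat.card_eq_fintype_card, Fintype.card_units] at hg
  have hinj : Function.Injective
      (fun x : u.coeff.support => (chiDual (x : Fin k → ℤ) : (Fin k → Kˣ) →* K)) := by
    intro a b hab
    apply Subtype.ext
    funext i
    have h1 := DFunLike.congr_fun hab (Pi.mulSingle i g)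
    have h2 : ∀ x : Fin k → ℤ, chi (Pi.mulSingle i g) x = g ^ x i := by
      intro x
      unfold chi
      rw [Finset.prod_eq_single i]
      · simp
      · intro j _ hj
        simp [Pi.mulSingle_eq_of_ne hj]
      · simp
    have h3 : g ^ (a : Fin k → ℤ) i = g ^ (b : Fin k → ℤ) i := by
      rw [← h2, ← h2]
      exact Units.ext h1
    rw [zpow_eq_zpow_iff_modEq, hg] at h3
    have h4 := hb a a.2 i
    have h5 := hb b b.2 i
    have h6 := Int.ModEq.dvd h3
    have h7 : (b : Fin k → ℤ) i - (a : Fin k → ℤ) i = 0 := by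
      refine Int.eq_zero_of_dvd_of_natAbs_lt_natAbs h6 ?_
      rw [Int.natAbs_natCast]
      omega
    omega
  have hli := (linearIndependent_monoidHom (Fin k → Kˣ) K).comp _ hinj
  have := Fintype.linearIndependent_iff.1 hli (fun x => u.coeff x) (by
    funext y
    have := hcon y
    rw [ev_apply, ← Finset.sum_coe_sort] at this
    simpa [Finset.sum_apply, chiDual] using this)
  apply hu
  rw [← coeff_eq_zero]
  ext x
  by_contra hx
  exact hx (this ⟨x, Finsupp.mem_support_iff.2 hx⟩)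

theorem exists_ev_ne_zero_family [Fintype K] {ι : Type} [Fintype ι] {D : ℕ}
    (u : ι → AddMonoidAlgebra K (Fin k → ℤ)) (hu : ∀ j, u j ≠ 0) (hb : ∀ j, Box D (u j))
    (hD : 2 * (Fintype.card ι * D) + 1 < Fintype.card K) : ∃ y, ∀ j, ev y (u j) ≠ 0 := by
  obtain ⟨y, hy⟩ := exists_ev_ne_zero (u := ∏ j, u j) (Finset.prod_ne_zero_iff.2 fun j _ => hu j)
    (box_prod Finset.univ D u hb) hD
  rw [map_prod] at hy
  exact ⟨y, fun j => Finset.prod_ne_zero_iff.1 hy j (Finset.mem_univ j)⟩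

/-- twist by a character -/
noncomputable def tw (y : Fin k → Kˣ) (u : AddMonoidAlgebra K (Fin k → ℤ)) :
    AddMonoidAlgebra K (Fin k → ℤ) :=
  ofCoeff (Finsupp.onFinset u.coeff.support (fun x => u.coeff x * chi y x)
    (fun _ hx => Finsupp.mem_support_iff.2 (left_ne_zero_of_mul hx)))

theorem coeff_tw (y : Fin k → Kˣ) (u : AddMonoidAlgebra K (Fin k → ℤ)) (x : Fin k → ℤ) :
    (tw y u).coeff x = u.coeff x * chi y x := rfl

theorem support_tw (y : Fin k → Kˣ) (u : AddMonoidAlgebra K (Fin k → ℤ)) :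
    (tw y u).coeff.support = u.coeff.support := by
  ext x
  simp [coeff_tw]

theorem Box.tw {D : ℕ} {u : AddMonoidAlgebra K (Fin k → ℤ)} (hu : Box D u) (y : Fin k → Kˣ) :
    Box D (tw y u) := by
  intro x hx
  rw [support_tw] at hx
  exact hu x hx

theorem ev_tw (y z : Fin k → Kˣ) (u : AddMonoidAlgebra K (Fin k → ℤ)) :
    ev z (tw y u) = ev (y * z) u := by
  rw [ev_apply, ev_apply, support_tw]
  refine Finset.sum_congr rfl fun x _ => ?_
  rw [coeff_tw, chi_mul, Units.val_mul, mul_assoc]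

/-- the two families agree, up to one shift, at the three points `y`, `z`, `y * z` -/
def Agree {ι : Type} (F G : ι → AddMonoidAlgebra K (Fin k → ℤ)) (y z : Fin k → Kˣ) : Prop :=
  ∃ c : Fin k → ℤ, ∀ i, ev y (F i) = chi y c * ev y (G i) ∧ ev z (F i) = chi z c * ev z (G i) ∧
    ev (y * z) (F i) = chi (y * z) c * ev (y * z) (G i)

theorem two_step {ι : Type} {D : ℕ} (F G : ι → AddMonoidAlgebra K (Fin k → ℤ))
    (hF : ∀ i, Box D (F i)) (hG : ∀ i, Box D (G i))
    (hne : ∀ c, ∃ i, F i ≠ single c 1 * G i) :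
    ∃ u, u ≠ 0 ∧ Box (D + D) u ∧ ∀ y, ev y u ≠ 0 →
      ∃ Q, Q ≠ 0 ∧ Box (D + D) Q ∧ ∀ z, ev z Q ≠ 0 → ¬ Agree F G y z := by
  classical
  have one : Box (D + D) (1 : AddMonoidAlgebra K (Fin k → ℤ)) := box_one.mono (Nat.zero_le _)
  by_cases hG0 : ∀ i, G i = 0
  · obtain ⟨i, hi⟩ := hne 0
    rw [hG0, mul_zero] at hi
    refine ⟨F i, hi, (hF i).mono (Nat.le_add_right _ _), fun y hy => ⟨1, one_ne_zero, one, ?_⟩⟩
    rintro z - ⟨c, hc⟩
    apply hy
    rw [(hc i).1, hG0, map_zero, mul_zero]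
  push Not at hG0
  obtain ⟨i₀, hi₀⟩ := hG0
  by_cases h1 : ∃ i, F i * G i₀ - G i * F i₀ ≠ 0
  · obtain ⟨i, hi⟩ := h1
    refine ⟨_, hi, ((hF i).mul (hG i₀)).sub ((hG i).mul (hF i₀)),
      fun y hy => ⟨1, one_ne_zero, one, ?_⟩⟩
    rintro z - ⟨c, hc⟩
    apply hy
    rw [map_sub, map_mul, map_mul, (hc i).1, (hc i₀).1]
    ring
  push Not at h1
  by_cases h2 : F i₀ = 0
  · refine ⟨G i₀, hi₀, (hG i₀).mono (Nat.le_add_right _ _), fun y hy => ⟨1, one_ne_zero, one, ?_⟩⟩
    rintro z - ⟨c, hc⟩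
    apply hy
    have := (hc i₀).1
    rw [h2, map_zero] at this
    exact (mul_eq_zero.1 this.symm).resolve_left (Units.ne_zero _)
  have hFs : (F i₀).coeff.support.Nonempty := by
    rw [Finsupp.support_nonempty_iff, ne_eq, coeff_eq_zero]; exact h2
  have hGs : (G i₀).coeff.support.Nonempty := by
    rw [Finsupp.support_nonempty_iff, ne_eq, coeff_eq_zero]; exact hi₀
  obtain ⟨x', hx', x, hx, huniq⟩ := UniqueSums.uniqueAdd_of_nonempty hFs hGs
  refine ⟨single x 1 * F i₀ - single x' 1 * G i₀, ?_,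
    ((box_single x 1 (hG i₀ x hx)).mul (hF i₀)).sub ((box_single x' 1 (hF i₀ x' hx')).mul (hG i₀)),
    fun y hy => ?_⟩
  · intro h0
    obtain ⟨i, hi⟩ := hne (x' - x)
    apply hi
    have h3 : F i₀ = single (x' - x) 1 * G i₀ := by
      have h4 : (single (-x) 1 : AddMonoidAlgebra K (Fin k → ℤ)) * single x 1 = 1 := by
        rw [single_mul_single, neg_add_cancel, one_mul]; rfl
      have h5 : (single (x' - x) 1 : AddMonoidAlgebra K (Fin k → ℤ)) =
          single (-x) 1 * single x' 1 := by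
        rw [single_mul_single, one_mul, neg_add_eq_sub]
      rw [h5, mul_assoc, ← sub_eq_zero.1 h0, ← mul_assoc, h4, one_mul]
    have h6 := h1 i
    rw [h3, sub_eq_zero] at h6
    apply mul_right_cancel₀ hi₀
    rw [h6]
    ring
  · refine ⟨ev y (F i₀) • (F i₀ * tw y (G i₀)) - ev y (G i₀) • (tw y (F i₀) * G i₀), ?_,
      (((hF i₀).mul ((hG i₀).tw y)).smul _).sub ((((hF i₀).tw y).mul (hG i₀)).smul _), ?_⟩
    · intro h0
      have h3 := congrArg (fun v => v.coeff (x' + x)) h0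
      simp only [coeff_sub, coeff_smul, Finsupp.sub_apply, Finsupp.smul_apply, smul_eq_mul,
        coeff_zero, Finsupp.zero_apply] at h3
      rw [coeff_mul_add_of_uniqueAdd (by rwa [support_tw]),
        coeff_mul_add_of_uniqueAdd (by rwa [support_tw]), coeff_tw, coeff_tw] at h3
      apply hy
      rw [map_sub, map_mul, map_mul, ev_single, ev_single]
      have h4 : (F i₀).coeff x' * (G i₀).coeff x ≠ 0 :=
        mul_ne_zero (Finsupp.mem_support_iff.1 hx') (Finsupp.mem_support_iff.1 hx)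
      apply mul_left_cancel₀ h4
      linear_combination h3
    · rintro z hz ⟨c, hc⟩
      apply hz
      obtain ⟨e1, e2, e3⟩ := hc i₀
      rw [map_sub, map_smul, map_smul, map_mul, map_mul, ev_tw, ev_tw, e1, e2, e3, chi_mul]
      simp only [smul_eq_mul, Units.val_mul]
      ring

theorem exists_separating [Fintype K] {ι J : Type} [Fintype J] {D : ℕ}
    (F : ι → AddMonoidAlgebra K (Fin k → ℤ)) (G : J → ι → AddMonoidAlgebra K (Fin k → ℤ))
    (hF : ∀ i, Box D (F i)) (hG : ∀ j i, Box D (G j i))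
    (hne : ∀ j c, ∃ i, F i ≠ single c 1 * G j i)
    (hD : 2 * (Fintype.card J * (D + D)) + 1 < Fintype.card K) :
    ∃ y z, ∀ j, ¬ Agree F (G j) y z := by
  choose u hu0 hub hu using fun j => two_step F (G j) hF (hG j) (hne j)
  obtain ⟨y, hy⟩ := exists_ev_ne_zero_family u hu0 hub hD
  choose Q hQ0 hQb hQ using fun j => hu j y (hy j)
  obtain ⟨z, hz⟩ := exists_ev_ne_zero_family Q hQ0 hQb hD
  exact ⟨y, z, fun j => hQ j z (hz j)⟩

end Pool.Agent.Lib.MP_9ae5d9_al
end

-- part Pool.Agent.Lib.MP_9ae5d9_al.Upper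
section

set_option autoImplicit false

namespace Pool.Agent.Lib.MP_9ae5d9_al

open AddMonoidAlgebra

variable {R : Type} [AddCommGroup R] {k : ℕ} {K : Type} [Field K] {d : ℕ}

/-- slices of the push-forward -/
noncomputable def sl (ι : R →+ K) (ρ : (Fin k → ℤ) →+ (Fin k → ℤ)) (l : (Fin k → ℤ) →+ ZMod d)
    (i : ZMod d) : ((Fin k → ℤ) →₀ R) →+ AddMonoidAlgebra K (Fin k → ℤ) :=
  Finsupp.liftAddHom fun x => if l x = i then (singleAddHom (ρ x)).comp ι else 0

theorem sl_single (ι : R →+ K) (ρ : (Fin k → ℤ) →+ (Fin k → ℤ)) (l : (Fin k → ℤ) →+ ZMod d)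
    (i : ZMod d) (x : Fin k → ℤ) (r : R) :
    sl ι ρ l i (Finsupp.single x r) = if l x = i then single (ρ x) (ι r) else 0 := by
  rw [sl, Finsupp.liftAddHom_apply_single]
  split_ifs <;> simp

theorem coeff_sl (ι : R →+ K) (ρ : (Fin k → ℤ) →+ (Fin k → ℤ)) (l : (Fin k → ℤ) →+ ZMod d)
    (i : ZMod d) (f : (Fin k → ℤ) →₀ R) (a : Fin k → ℤ) :
    (sl ι ρ l i f).coeff a = ι (Finsupp.mapDomain (ρ.prod l) f (a, i)) := by
  classical
  induction f using Finsupp.induction_linear with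
  | zero => simp
  | add f g hf hg =>
    rw [map_add, coeff_add, Finsupp.add_apply, hf, hg, Finsupp.mapDomain_add, Finsupp.add_apply,
      map_add]
  | single x r =>
    rw [sl_single, Finsupp.mapDomain_single, Finsupp.single_apply]
    by_cases h1 : l x = i
    · by_cases h2 : ρ x = a
      · simp [h1, h2]
      · simp [h1, h2]
    · simp [h1]

theorem sl_sh (ι : R →+ K) (ρ : (Fin k → ℤ) →+ (Fin k → ℤ)) (l : (Fin k → ℤ) →+ ZMod d)
    (i : ZMod d) (c : Fin k → ℤ) (f : (Fin k → ℤ) →₀ R) :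
    sl ι ρ l i (sh c f) = single (ρ c) 1 * sl ι ρ l (i - l c) f := by
  induction f using Finsupp.induction_linear with
  | zero => simp
  | add f g hf hg => rw [map_add, map_add, map_add, hf, hg, mul_add]
  | single x r =>
    rw [sh_single, sl_single, sl_single, map_add]
    by_cases h : l x + l c = i
    · rw [if_pos h, if_pos (eq_sub_of_add_eq h), single_mul_single, one_mul, map_add, add_comm]
    · rw [if_neg h, if_neg (fun h' => h (by rw [h', sub_add_cancel])), mul_zero]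

theorem box_sl (ι : R →+ K) (ρ : (Fin k → ℤ) →+ (Fin k → ℤ)) (l : (Fin k → ℤ) →+ ZMod d)
    (i : ZMod d) (f : (Fin k → ℤ) →₀ R) (D : ℕ)
    (hf : ∀ x ∈ f.support, ∀ j, (ρ x j).natAbs ≤ D) : Box D (sl ι ρ l i f) := by
  classical
  intro a ha j
  rw [Finsupp.mem_support_iff, coeff_sl] at ha
  have h1 : (a, i) ∈ (Finsupp.mapDomain (ρ.prod l) f).support := by
    rw [Finsupp.mem_support_iff]
    intro h
    exact ha (by rw [h, map_zero])
  obtain ⟨x, hx, hxa⟩ := Finset.mem_image.1 (Finsupp.mapDomain_support h1)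
  have : ρ x = a := congrArg Prod.fst hxa
  rw [← this]
  exact hf x hx j

/-- the action of the finite top group on the finite base group -/
def act (K : Type) [Field K] (d : ℕ) :
    Multiplicative (ZMod d) × (Fin 3 → Kˣ) →* MulAut (Multiplicative (Fin 3 → ZMod d → K)) where
  toFun h := AddEquiv.toMultiplicative
    { toFun := fun m w i => (h.2 w : K) * m w (i - h.1.toAdd)
      invFun := fun m w i => ((h.2 w)⁻¹ : Kˣ) * m w (i + h.1.toAdd)
      left_inv := by intro m; funext w i; simp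
      right_inv := by intro m; funext w i; simp
      map_add' := by intro m m'; funext w i; simp [mul_add] }
  map_one' := by
    ext m w i
    show ((1 : Kˣ) : K) * m.toAdd w (i - 0) = m.toAdd w i
    simp
  map_mul' a b := by
    ext m w i
    show ((a.2 w * b.2 w : Kˣ) : K) * m.toAdd w (i - (a.1.toAdd + b.1.toAdd)) =
      (a.2 w : K) * ((b.2 w : K) * m.toAdd w (i - a.1.toAdd - b.1.toAdd))
    rw [Units.val_mul, mul_assoc, sub_sub]

noncomputable def evM (ι : R →+ K) (ρ : (Fin k → ℤ) →+ (Fin k → ℤ)) (l : (Fin k → ℤ) →+ ZMod d)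
    (Y : Fin 3 → Fin k → Kˣ) : ((Fin k → ℤ) →₀ R) →+ (Fin 3 → ZMod d → K) where
  toFun f := fun w i => ev (Y w) (sl ι ρ l i f)
  map_zero' := by funext w i; simp
  map_add' f g := by funext w i; simp

def etaH (ρ : (Fin k → ℤ) →+ (Fin k → ℤ)) (l : (Fin k → ℤ) →+ ZMod d)
    (Y : Fin 3 → Fin k → Kˣ) :
    Multiplicative (Fin k → ℤ) →* Multiplicative (ZMod d) × (Fin 3 → Kˣ) where
  toFun a := (Multiplicative.ofAdd (l a.toAdd), fun w => chi (Y w) (ρ a.toAdd))
  map_one' := by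
    ext <;> simp [chi_zero]
  map_mul' a b := by
    ext <;> simp [chi_add]

theorem evM_sh (ι : R →+ K) (ρ : (Fin k → ℤ) →+ (Fin k → ℤ)) (l : (Fin k → ℤ) →+ ZMod d)
    (Y : Fin 3 → Fin k → Kˣ) (c : Fin k → ℤ) (f : (Fin k → ℤ) →₀ R) (w : Fin 3) (i : ZMod d) :
    evM ι ρ l Y (sh c f) w i = chi (Y w) (ρ c) * evM ι ρ l Y f w (i - l c) := by
  show ev (Y w) (sl ι ρ l i (sh c f)) = _ * ev (Y w) (sl ι ρ l (i - l c) f)
  rw [sl_sh, map_mul, ev_single, one_mul]

noncomputable def piQ (ι : R →+ K) (ρ : (Fin k → ℤ) →+ (Fin k → ℤ)) (l : (Fin k → ℤ) →+ ZMod d)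
    (Y : Fin 3 → Fin k → Kˣ) :
    Wreath R k →* SemidirectProduct (Multiplicative (Fin 3 → ZMod d → K))
      (Multiplicative (ZMod d) × (Fin 3 → Kˣ)) (act K d) :=
  SemidirectProduct.map (AddMonoidHom.toMultiplicative (evM ι ρ l Y)) (etaH ρ l Y) (by
    intro c
    refine MonoidHom.ext fun f => ?_
    funext w i
    show evM ι ρ l Y (shift R k c f).toAdd w i =
      chi (Y w) (ρ c.toAdd) * evM ι ρ l Y f.toAdd w (i - l c.toAdd)
    rw [shift_toAdd, evM_sh])

theorem depth_le_of_field [Fintype K] (ι : R →+ K) (g h : Wreath R k) (r : ℕ) (hr : 1 ≤ r)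
    (hpos : pos h = pos g) (hb : ∀ i, (pos g i).natAbs ≤ r)
    (hg : ∀ x ∈ (lamp g).support, ∀ i, (x i).natAbs ≤ r)
    (hh : ∀ x ∈ (lamp h).support, ∀ i, (x i).natAbs ≤ r)
    (hι : ∀ (B : Type) (Φ : (Fin k → ℤ) → B) (p q : B),
      ι (Finsupp.mapDomain Φ (lamp h) p) = ι (Finsupp.mapDomain Φ (lamp g) q) →
      Finsupp.mapDomain Φ (lamp h) p = Finsupp.mapDomain Φ (lamp g) q)
    (hK : 8 * r ^ 3 + 1 < Fintype.card K) (hnc : ¬ IsConj g h) :
    depth g h ≤ ((Fintype.card K ^ (3 * r + 4) : ℕ) : ℕ∞) := by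
  classical
  obtain ⟨d, ρ, l, hd1, hdr, hρb, hlb, hker, hρ⟩ := exists_coords (pos g) r hr hb
  have : NeZero d := ⟨by omega⟩
  have hne : ∀ (j : ZMod d) (c : Fin k → ℤ), ∃ i,
      sl ι ρ l i (lamp h) ≠ single c 1 * sl ι ρ l (i - j) (lamp g) := by
    intro j c
    by_contra hcon
    push Not at hcon
    apply hnc
    refine isConj_of_translate (ρ.prod l) g h hpos ?_ (c, j) ?_
    · intro x hx
      exact hker x (congrArg Prod.fst hx) (congrArg Prod.snd hx)
    · rintro ⟨a, i⟩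
      apply hι
      have := congrArg (fun v => v.coeff a) (hcon i)
      simp only [coeff_single_mul_apply, coeff_sl, one_mul] at this
      rw [this, Prod.mk_sub_mk, neg_add_eq_sub]
  obtain ⟨y, z, hyz⟩ := exists_separating (K := K) (D := 2 * r ^ 2)
    (fun i => sl ι ρ l i (lamp h)) (fun j i => sl ι ρ l (i - j) (lamp g))
    (fun i => box_sl ι ρ l i _ _ fun x hx => hρ x (hh x hx))
    (fun j i => box_sl ι ρ l _ _ _ fun x hx => hρ x (hg x hx)) hne (by
      rw [ZMod.card]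
      have : d * (2 * r ^ 2 + 2 * r ^ 2) ≤ r * (2 * r ^ 2 + 2 * r ^ 2) := Nat.mul_le_mul_right _ hdr
      nlinarith)
  have hfin : Finite (SemidirectProduct (Multiplicative (Fin 3 → ZMod d → K))
      (Multiplicative (ZMod d) × (Fin 3 → Kˣ)) (act K d)) :=
    Finite.of_equiv _ SemidirectProduct.equivProd.symm
  refine (depth_le (piQ ι ρ l ![y, z, y * z]) g h ?_).trans ?_
  · intro γ hγ
    have h1 : evM ι ρ l ![y, z, y * z] (lamp (γ * g * γ⁻¹)) = evM ι ρ l ![y, z, y * z] (lamp h) :=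
      congrArg (fun q => q.left.toAdd) hγ
    have h2 : ∀ w i, evM ι ρ l ![y, z, y * z] (lamp h) w i =
        chi (![y, z, y * z] w) (ρ (pos γ)) *
          evM ι ρ l ![y, z, y * z] (lamp g) w (i - l (pos γ)) := by
      intro w i
      rw [← h1, lamp_conj, map_sub, map_add]
      simp only [Pi.sub_apply, Pi.add_apply, evM_sh, hρb, hlb, chi_zero, sub_zero, Units.val_one,
        one_mul]
      ring
    exact hyz (l (pos γ)) ⟨ρ (pos γ), fun i => ⟨h2 0 i, h2 1 i, h2 2 i⟩⟩
  · rw [SemidirectProduct.card]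
    norm_cast
    have hq : 1 ≤ Fintype.card K := by omega
    have e1 : Nat.card (Multiplicative (Fin 3 → ZMod d → K)) = Fintype.card K ^ (d * 3) := by
      rw [Nat.card_eq_fintype_card]
      simp [pow_mul]
    have e2 : Nat.card (Multiplicative (ZMod d) × (Fin 3 → Kˣ)) =
        d * (Fintype.card K - 1) ^ 3 := by
      rw [Nat.card_eq_fintype_card]
      simp [Fintype.card_units]
    rw [e1, e2]
    have h3 : Fintype.card K ^ (d * 3) ≤ Fintype.card K ^ (3 * r) :=
      Nat.pow_le_pow_right hq (by omega)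
    have h4 : (Fintype.card K - 1) ^ 3 ≤ Fintype.card K ^ 3 :=
      Nat.pow_le_pow_left (Nat.sub_le _ _) _
    have h5 : d ≤ Fintype.card K := by
      have : r ≤ r ^ 3 := Nat.le_self_pow (by norm_num) r
      omega
    calc Fintype.card K ^ (d * 3) * (d * (Fintype.card K - 1) ^ 3)
        ≤ Fintype.card K ^ (3 * r) * (Fintype.card K * Fintype.card K ^ 3) :=
          Nat.mul_le_mul h3 (Nat.mul_le_mul h5 h4)
      _ = Fintype.card K ^ (3 * r + 4) := by ring

theorem depth_le_of_pos_ne (g h : Wreath R k) (r : ℕ) (hpos : pos h ≠ pos g)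
    (hg : ∀ i, (pos g i).natAbs ≤ r) (hh : ∀ i, (pos h i).natAbs ≤ r) :
    depth g h ≤ ((2 * r + 1 : ℕ) : ℕ∞) := by
  obtain ⟨i, hi⟩ := Function.ne_iff.1 hpos
  let L : (Fin k → ℤ) →+ ZMod (2 * r + 1) :=
    (Int.castAddHom (ZMod (2 * r + 1))).comp (Pi.evalAddMonoidHom (fun _ => ℤ) i)
  refine (depth_le ((AddMonoidHom.toMultiplicative L).comp SemidirectProduct.rightHom) g h
    ?_).trans ?_
  · intro γ hγ
    have h1 : L (pos (γ * g * γ⁻¹)) = L (pos h) := hγ
    rw [pos_conj] at h1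
    have h2 : ((pos g i : ℤ) : ZMod (2 * r + 1)) = ((pos h i : ℤ) : ZMod (2 * r + 1)) := h1
    rw [ZMod.intCast_eq_intCast_iff_dvd_sub] at h2
    have h3 := Int.eq_zero_of_dvd_of_natAbs_lt_natAbs h2 (by
      have := hg i
      have := hh i
      rw [Int.natAbs_natCast]
      omega)
    omega
  · simp

/-- size bounds along words -/
structure Small (ν : R → ℕ) (r : ℕ) (g : Wreath R k) : Prop where
  pos_le : ∀ i, (pos g i).natAbs ≤ r
  supp_le : ∀ x ∈ (lamp g).support, ∀ i, (x i).natAbs ≤ r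
  mass_le : ∀ (B : Type) (Φ : (Fin k → ℤ) → B) (p : B), ν (Finsupp.mapDomain Φ (lamp g) p) ≤ r

theorem Small.mono {ν : R → ℕ} {r s : ℕ} {g : Wreath R k} (h : Small ν r g) (hrs : r ≤ s) :
    Small ν s g :=
  ⟨fun i => (h.pos_le i).trans hrs, fun x hx i => (h.supp_le x hx i).trans hrs,
    fun B Φ p => (h.mass_le B Φ p).trans hrs⟩

theorem Small.mul {ν : R → ℕ} (hν : ∀ a b, ν (a + b) ≤ ν a + ν b) {r s : ℕ} {g h : Wreath R k}
    (hg : Small ν r g) (hh : Small ν s h) : Small ν (r + s) (g * h) := by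
  classical
  refine ⟨fun i => ?_, fun x hx i => ?_, fun B Φ p => ?_⟩
  · have := hg.pos_le i
    have := hh.pos_le i
    rw [pos_mul, Pi.add_apply]
    omega
  · rw [lamp_mul] at hx
    rcases Finset.mem_union.1 (Finsupp.support_add hx) with h1 | h1
    · exact (hg.supp_le x h1 i).trans (Nat.le_add_right _ _)
    · obtain ⟨y, hy, rfl⟩ := Finset.mem_image.1 (Finsupp.mapDomain_support h1)
      have := hg.pos_le i
      have := hh.supp_le y hy i
      rw [Pi.add_apply]
      omega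
  · rw [lamp_mul, Finsupp.mapDomain_add, Finsupp.add_apply, sh_apply, ← Finsupp.mapDomain_comp]
    exact (hν _ _).trans (Nat.add_le_add (hg.mass_le B Φ p) (hh.mass_le B _ p))

theorem small_one {ν : R → ℕ} (h0 : ν 0 = 0) : Small ν 0 (1 : Wreath R k) :=
  ⟨fun i => by simp [pos_one], fun x hx => by simp [lamp_one] at hx,
    fun B Φ p => by simp [lamp_one, h0]⟩

theorem exists_small {ν : R → ℕ} (h0 : ν 0 = 0) (hν : ∀ a b, ν (a + b) ≤ ν a + ν b)
    (g : Wreath R k) : ∃ r, Small ν r g := by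
  classical
  have h1 : ∀ f : (Fin k → ℤ) →₀ R, ∃ r, ∀ (B : Type) (Φ : (Fin k → ℤ) → B) (p : B),
      ν (Finsupp.mapDomain Φ f p) ≤ r := by
    intro f
    induction f using Finsupp.induction_linear with
    | zero => exact ⟨0, fun B Φ p => by simp [h0]⟩
    | add f g hf hg =>
      obtain ⟨r, hr⟩ := hf
      obtain ⟨s, hs⟩ := hg
      refine ⟨r + s, fun B Φ p => ?_⟩
      rw [Finsupp.mapDomain_add, Finsupp.add_apply]
      exact (hν _ _).trans (Nat.add_le_add (hr B Φ p) (hs B Φ p))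
    | single x a =>
      refine ⟨ν a, fun B Φ p => ?_⟩
      rw [Finsupp.mapDomain_single, Finsupp.single_apply]
      split_ifs
      · exact le_rfl
      · rw [h0]; exact Nat.zero_le _
  obtain ⟨r, hr⟩ := h1 (lamp g)
  let s := Finset.univ.sup fun i => (pos g i).natAbs
  let t := (lamp g).support.sup fun x => Finset.univ.sup fun i => (x i).natAbs
  refine ⟨r + s + t, fun i => ?_, fun x hx i => ?_, fun B Φ p => ?_⟩
  · have : (pos g i).natAbs ≤ s :=
      Finset.le_sup (f := fun i => (pos g i).natAbs) (Finset.mem_univ i)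
    omega
  · have h2 : (x i).natAbs ≤ Finset.univ.sup fun i => (x i).natAbs :=
      Finset.le_sup (f := fun i => (x i).natAbs) (Finset.mem_univ i)
    have h3 : (Finset.univ.sup fun i => (x i).natAbs) ≤ t :=
      Finset.le_sup (f := fun x : Fin k → ℤ => Finset.univ.sup fun i => (x i).natAbs) hx
    omega
  · have := hr B Φ p
    omega

theorem exists_small_ball {ν : R → ℕ} (h0 : ν 0 = 0) (hν : ∀ a b, ν (a + b) ≤ ν a + ν b)
    (S : Finset (Wreath R k)) : ∃ C, 1 ≤ C ∧ ∀ n g, InBall S n g → Small ν (C * n) g := by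
  choose r hr using fun g : Wreath R k => exists_small h0 hν g
  let C := 1 + S.sup fun g => r g + r g⁻¹
  have hC : ∀ x, x ∈ S ∨ x⁻¹ ∈ S → Small ν C x := by
    rintro x (hx | hx)
    · refine (hr x).mono ?_
      have : r x + r x⁻¹ ≤ S.sup fun g => r g + r g⁻¹ :=
        Finset.le_sup (f := fun g => r g + r g⁻¹) hx
      omega
    · refine (hr x).mono ?_
      have : r x⁻¹ + r x⁻¹⁻¹ ≤ S.sup fun g => r g + r g⁻¹ :=
        Finset.le_sup (f := fun g => r g + r g⁻¹) hx
      rw [inv_inv] at this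
      omega
  refine ⟨C, Nat.le_add_right _ _, ?_⟩
  rintro n g ⟨l, hl, hS, rfl⟩
  refine Small.mono (r := C * l.length) ?_ (Nat.mul_le_mul_left _ hl)
  clear hl
  induction l with
  | nil => simpa using small_one h0
  | cons x l ih =>
    rw [List.prod_cons, List.length_cons, mul_add, mul_one, add_comm]
    exact (hC x (hS x List.mem_cons_self)).mul hν
      (ih fun y hy => hS y (List.mem_cons_of_mem _ hy))

/-- The upper bound `Conj(n) ≤ (E n)^(E n)`. -/
theorem conjDepth_le {ν : R → ℕ} (h0 : ν 0 = 0) (hν : ∀ a b, ν (a + b) ≤ ν a + ν b) (C₀ : ℕ)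
    (hK : ∀ N, 1 ≤ N → ∃ (K : Type) (_ : Field K) (_ : Fintype K) (ι : R →+ K),
      N < Fintype.card K ∧ Fintype.card K ≤ C₀ * N ∧
        ∀ a b, ν a + ν b ≤ N → ι a = ι b → a = b)
    (S : Finset (Wreath R k)) :
    ∃ E : ℕ, ∀ n, 1 ≤ n → conjDepth S n ≤ (((E * n) ^ (E * n) : ℕ) : ℕ∞) := by
  obtain ⟨C, hC1, hC⟩ := exists_small_ball h0 hν S
  refine ⟨(9 * C₀ + 21) * C, fun n hn => ?_⟩
  apply sSup_le
  rintro _ ⟨g, h, hg, hh, hnc, rfl⟩
  have sg := hC n g hg
  have sh' := hC n h hh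
  rw [mul_assoc]
  generalize hr : C * n = r at *
  have hr1 : 1 ≤ r := by rw [← hr]; exact Nat.mul_pos hC1 hn
  have hr3 : r ≤ r ^ 3 := Nat.le_self_pow (by norm_num) r
  have hbase : 1 ≤ (9 * C₀ + 21) * r := Nat.mul_pos (by omega) hr1
  by_cases hpos : pos h = pos g
  · obtain ⟨K, _, _, ι, hK1, hK2, hι⟩ := hK (8 * r ^ 3 + 1) (by omega)
    refine (depth_le_of_field ι g h r hr1 hpos sg.pos_le sg.supp_le sh'.supp_le ?_ hK1 hnc).trans ?_
    · intro B Φ p q
      apply hι
      have := sg.mass_le B Φ q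
      have := sh'.mass_le B Φ p
      omega
    · norm_cast
      have h1 : Fintype.card K ≤ ((9 * C₀ + 21) * r) ^ 3 := by
        refine hK2.trans ?_
        have h2 : 9 * C₀ + 21 ≤ (9 * C₀ + 21) ^ 3 := Nat.le_self_pow (by norm_num) _
        calc C₀ * (8 * r ^ 3 + 1) ≤ C₀ * (9 * r ^ 3) := Nat.mul_le_mul_left _ (by omega)
          _ = (9 * C₀) * r ^ 3 := by ring
          _ ≤ (9 * C₀ + 21) ^ 3 * r ^ 3 := Nat.mul_le_mul_right _ (by omega)
          _ = ((9 * C₀ + 21) * r) ^ 3 := by ring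
      calc Fintype.card K ^ (3 * r + 4) ≤ (((9 * C₀ + 21) * r) ^ 3) ^ (3 * r + 4) :=
            Nat.pow_le_pow_left h1 _
        _ = ((9 * C₀ + 21) * r) ^ (3 * (3 * r + 4)) := by rw [← pow_mul]
        _ ≤ _ := Nat.pow_le_pow_right hbase (by nlinarith)
  · refine (depth_le_of_pos_ne g h r hpos sg.pos_le sh'.pos_le).trans ?_
    norm_cast
    refine le_trans ?_ (Nat.le_self_pow (by omega) _)
    nlinarith

theorem conjDepth_le_zmod (p : ℕ) (hp : p.Prime) (S : Finset (Wreath (ZMod p) k)) :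
    ∃ E : ℕ, ∀ n, 1 ≤ n → conjDepth S n ≤ (((E * n) ^ (E * n) : ℕ) : ℕ∞) := by
  have := Fact.mk hp
  refine conjDepth_le (ν := fun _ => 0) rfl (fun _ _ => le_rfl) p ?_ S
  intro N hN
  have hm : Nat.log p N + 1 ≠ 0 := by omega
  let _ : Fintype (GaloisField p (Nat.log p N + 1)) := Fintype.ofFinite _
  have hc : Fintype.card (GaloisField p (Nat.log p N + 1)) = p ^ (Nat.log p N + 1) := by
    rw [← Nat.card_eq_fintype_card, GaloisField.card p _ hm]
  refine ⟨GaloisField p (Nat.log p N + 1), inferInstance, inferInstance,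
    (algebraMap (ZMod p) _).toAddMonoidHom, ?_, ?_, fun a b _ hab => ?_⟩
  · rw [hc]; exact Nat.lt_pow_succ_log_self hp.one_lt N
  · rw [hc, pow_succ, mul_comm]
    exact Nat.mul_le_mul_left _ (Nat.pow_log_le_self p (by omega))
  · exact (algebraMap (ZMod p) (GaloisField p (Nat.log p N + 1))).injective hab

theorem conjDepth_le_int (S : Finset (Wreath ℤ k)) :
    ∃ E : ℕ, ∀ n, 1 ≤ n → conjDepth S n ≤ (((E * n) ^ (E * n) : ℕ) : ℕ∞) := by
  refine conjDepth_le (ν := Int.natAbs) rfl Int.natAbs_add_le 2 ?_ S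
  intro N hN
  obtain ⟨q, hq, hq1, hq2⟩ := Nat.exists_prime_lt_and_le_two_mul N (by omega)
  have := Fact.mk hq
  refine ⟨ZMod q, inferInstance, inferInstance, Int.castAddHom _, ?_, ?_, fun a b hab h => ?_⟩
  · rwa [ZMod.card]
  · rwa [ZMod.card]
  · have h2 : ((a : ℤ) : ZMod q) = ((b : ℤ) : ZMod q) := h
    rw [ZMod.intCast_eq_intCast_iff_dvd_sub] at h2
    have h3 := Int.eq_zero_of_dvd_of_natAbs_lt_natAbs h2 (by
      rw [Int.natAbs_natCast]
      omega)
    omega

theorem exists_big (E : ℕ) : ∃ n, 8 ≤ n ∧ E * (E * n) ^ (E * n) < 2 ^ (n ^ 2) := by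
  let a := 4 * E + 2
  refine ⟨2 ^ (a + a), ?_, ?_⟩
  · calc 8 = 2 ^ 3 := by norm_num
      _ ≤ 2 ^ (a + a) := Nat.pow_le_pow_right (by norm_num) (by omega)
  · have h1 : E ≤ 2 ^ E := Nat.lt_two_pow_self.le
    have h2 : a < 2 ^ a := Nat.lt_two_pow_self
    set n := 2 ^ (a + a) with hn
    have h3 : a * a < n := by
      rw [hn, pow_add]
      exact Nat.mul_lt_mul'' h2 h2
    have h4 : E * n ≤ 2 ^ (E + (a + a)) := by
      rw [pow_add]; exact Nat.mul_le_mul_right _ h1
    have hn1 : 1 ≤ n := by omega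
    calc E * (E * n) ^ (E * n) ≤ 2 ^ E * (2 ^ (E + (a + a))) ^ (E * n) :=
          Nat.mul_le_mul h1 (Nat.pow_le_pow_left h4 _)
      _ = 2 ^ (E + (E + (a + a)) * (E * n)) := by rw [← pow_mul, ← pow_add]
      _ < 2 ^ (n ^ 2) := by
          apply Nat.pow_lt_pow_right (by norm_num)
          have h5 : E + (E + (a + a)) * E < n := by
            refine lt_of_le_of_lt ?_ h3
            simp only [a]
            nlinarith
          calc E + (E + (a + a)) * (E * n) ≤ E * n + (E + (a + a)) * (E * n) :=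
                Nat.add_le_add_right (Nat.le_mul_of_pos_right _ hn1) _
            _ = (E + (E + (a + a)) * E) * n := by ring
            _ < n * n := Nat.mul_lt_mul_of_pos_right h5 hn1
            _ = n ^ 2 := by ring

theorem exists_violation {G : Type} [Group G] (S : Finset G) (E : ℕ)
    (hE : ∀ n, 1 ≤ n → conjDepth S n ≤ (((E * n) ^ (E * n) : ℕ) : ℕ∞)) (C : ℕ) (hC : 0 < C)
    (k : ℕ) (hk : 2 ≤ k) :
    ∃ n N : ℕ, 8 ≤ n ∧ (C : ℕ∞) * conjDepth S (C * n) ≤ (N : ℕ∞) ∧ N < 2 ^ (n ^ k) := by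
  obtain ⟨n, hn8, hn⟩ := exists_big ((E + 1) * C)
  refine ⟨n, C * (E * (C * n)) ^ (E * (C * n)), hn8, ?_, ?_⟩
  · rw [Nat.cast_mul]
    exact mul_le_mul_right (hE _ (Nat.mul_pos hC (by omega))) _
  · have h1 : E * (C * n) ≤ (E + 1) * C * n := by nlinarith [Nat.zero_le (C * n)]
    have h2 : 1 ≤ (E + 1) * C * n := Nat.mul_pos (Nat.mul_pos (by omega) hC) (by omega)
    calc C * (E * (C * n)) ^ (E * (C * n))
        ≤ ((E + 1) * C) * ((E + 1) * C * n) ^ ((E + 1) * C * n) :=
          Nat.mul_le_mul (Nat.le_mul_of_pos_left _ (by omega))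
            ((Nat.pow_le_pow_left h1 _).trans (Nat.pow_le_pow_right h2 h1))
      _ < 2 ^ (n ^ 2) := hn
      _ ≤ 2 ^ (n ^ k) := Nat.pow_le_pow_right (by norm_num) (Nat.pow_le_pow_right (by omega) hk)

end Pool.Agent.Lib.MP_9ae5d9_al
end

-- part Pool.Agent.Lib.MP_9ae5d9_al.Large
section

/-!
Violations of the conjectured lower bound at arbitrarily large `n`.
-/

set_option autoImplicit false

namespace Pool.Agent.Lib.MP_9ae5d9_al

theorem exists_big_ge (E m : ℕ) :
    ∃ n, m ≤ n ∧ 8 ≤ n ∧ E * (E * n) ^ (E * n) < 2 ^ (n ^ 2) := by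
  obtain ⟨n, hn8, hn⟩ := exists_big (E + m + 1)
  have hpos : 1 ≤ (E + m + 1) * n := Nat.mul_pos (by omega) (by omega)
  refine ⟨n, ?_, hn8, ?_⟩
  · by_contra hlt
    have hlt' : n < m := not_le.1 hlt
    have h1 : n ^ 2 ≤ (E + m + 1) * n := by nlinarith
    have h2 : 2 ≤ (E + m + 1) * n := by nlinarith
    have h3 : 2 ^ (n ^ 2) ≤ ((E + m + 1) * n) ^ ((E + m + 1) * n) :=
      (Nat.pow_le_pow_right (by norm_num) h1).trans (Nat.pow_le_pow_left h2 _)
    have h4 : ((E + m + 1) * n) ^ ((E + m + 1) * n) ≤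
        (E + m + 1) * ((E + m + 1) * n) ^ ((E + m + 1) * n) :=
      Nat.le_mul_of_pos_left _ (by omega)
    omega
  · have h1 : E * n ≤ (E + m + 1) * n := Nat.mul_le_mul_right _ (by omega)
    refine lt_of_le_of_lt ?_ hn
    exact Nat.mul_le_mul (by omega)
      ((Nat.pow_le_pow_left h1 _).trans (Nat.pow_le_pow_right hpos h1))

theorem exists_violation_ge {G : Type} [Group G] (S : Finset G) (E : ℕ)
    (hE : ∀ n, 1 ≤ n → conjDepth S n ≤ (((E * n) ^ (E * n) : ℕ) : ℕ∞)) (C : ℕ) (hC : 0 < C)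
    (k : ℕ) (hk : 2 ≤ k) (m : ℕ) :
    ∃ n N : ℕ, m ≤ n ∧ 8 ≤ n ∧ (C : ℕ∞) * conjDepth S (C * n) ≤ (N : ℕ∞) ∧ N < 2 ^ (n ^ k) := by
  obtain ⟨n, hm, hn8, hn⟩ := exists_big_ge ((E + 1) * C) m
  refine ⟨n, C * (E * (C * n)) ^ (E * (C * n)), hm, hn8, ?_, ?_⟩
  · rw [Nat.cast_mul]
    exact mul_le_mul_right (hE _ (Nat.mul_pos hC (by omega))) _
  · have h1 : E * (C * n) ≤ (E + 1) * C * n := by nlinarith [Nat.zero_le (C * n)]
    have h2 : 1 ≤ (E + 1) * C * n := Nat.mul_pos (Nat.mul_pos (by omega) hC) (by omega)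
    calc C * (E * (C * n)) ^ (E * (C * n))
        ≤ ((E + 1) * C) * ((E + 1) * C * n) ^ ((E + 1) * C * n) :=
          Nat.mul_le_mul (Nat.le_mul_of_pos_left _ (by omega))
            ((Nat.pow_le_pow_left h1 _).trans (Nat.pow_le_pow_right h2 h1))
      _ < 2 ^ (n ^ 2) := hn
      _ ≤ 2 ^ (n ^ k) := Nat.pow_le_pow_right (by norm_num) (Nat.pow_le_pow_right (by omega) hk)

end Pool.Agent.Lib.MP_9ae5d9_al
end
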